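import Pool.Agent.Lib.MP_55041d_an.h32b.Main2

/-!
MP_55041d_an, Q1 for `k = 2` and spaces without `c_0` and `l_2`.
-/

set_option autoImplicit false

open ZeroAtInfty

namespace Pool.Agent.Results.MP_55041d_an.NormTwo

/-- A separable Banach space with a `C^2`-smooth bump function into which neither `c_0` nor `l_2` embeds has an
equivalent `C^2`-smooth norm. -/
theorem result {X : Type*} [NormedAddCommGroup X] [NormedSpace ℝ X] [CompleteSpace X]
    [TopologicalSpace.SeparableSpace X] (hb : C2N.HasC2Bump X)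
    (h0 : ¬ C2N.Embeds C₀(ℕ, ℝ) X) (h2 : ¬ C2N.Embeds (lp (fun _ : ℕ => ℝ) 2) X) :
    C2N.HasC2Norm X :=
  C2N.theorem1' hb h0 h2

end Pool.Agent.Results.MP_55041d_an.NormTwo
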