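import Pool.Agent.Lib.MP_55041d_an.h32b.Main

/-!
MP_55041d_an, Q2 for `k = 2`: every infinite-dimensional Banach space with a `C^2`-smooth bump function has an
infinite-dimensional closed subspace with an equivalent `C^2`-smooth norm.
-/

set_option autoImplicit false

namespace Pool.Agent.Results.MP_55041d_an.SubspaceTwo

/-- Every infinite-dimensional Banach space with a `C^2`-smooth bump function has an infinite-dimensional
closed subspace with an equivalent `C^2`-smooth norm. -/
theorem result {X : Type*} [NormedAddCommGroup X] [NormedSpace ℝ X] [CompleteSpace X]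
    (hinf : ¬ FiniteDimensional ℝ X) (hb : C2N.HasC2Bump X) :
    ∃ V : Submodule ℝ X, IsClosed (V : Set X) ∧ ¬ FiniteDimensional ℝ V ∧ C2N.HasC2Norm V :=
  C2N.theorem2 hinf hb

end Pool.Agent.Results.MP_55041d_an.SubspaceTwo
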